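import Pool.Agent.Lib.MP_6bc78b_nt.MS.QZ.Iface

/-! BLS: sums over the blocks -/

set_option autoImplicit false

open Complex Filter Topology MeasureTheory ArithmeticFunction

namespace Pool.Agent.Lib.MP_6bc78b_nt.MS.QZ.H94

open Pool.Agent.Lib.MP_6bc78b_nt.MS Pool.Agent.Lib.MP_6bc78b_nt.MS.QZ

theorem log_yy {T : ℝ} (hT : 0 < T) (j : ℕ) : Real.log (yy T j) = dl T j * Real.log T := by
  unfold yy
  rw [Real.log_rpow hT]

theorem dl_succ (T : ℝ) (j : ℕ) : dl T (j + 1) = Real.exp 1 * dl T j := by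
  unfold dl
  push_cast
  rw [Real.exp_add]
  ring

theorem e_lt : Real.exp 1 ≤ 2.72 := by
  have := Real.exp_one_lt_d9
  linarith

theorem rq_le_tsum (S : Finset ℕ) : rq S ≤ ∑' n : ℕ, ((n : ℝ) ^ 2)⁻¹ := by
  unfold rq
  have hs : Summable fun n : ℕ => ((n : ℝ) ^ 2)⁻¹ := by
    have := Real.summable_nat_pow_inv.2 (show 1 < 2 by norm_num)
    exact this
  exact hs.sum_le_tsum S fun i _ => by positivity

theorem two_le_of_log {T : ℝ} {X : ℝ} (hX : Real.exp (Real.exp X) ≤ T) : X ≤ ll T := by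
  unfold ll
  have h1 : Real.exp X ≤ Real.log T := by
    rw [Real.le_log_iff_exp_le (lt_of_lt_of_le (Real.exp_pos _) hX)]
    exact hX
  rw [Real.le_log_iff_exp_le (lt_of_lt_of_le (Real.exp_pos _) h1)]
  exact h1

theorem RJ_zero {T : ℝ} (hl : 4 ≤ ll T) : 2 * ll T ≤ RJ T 0 := by
  have h0 : 0 < ll T := by linarith
  have h1 : dl T 0 = ll T ^ (-2 : ℝ) := by
    unfold dl
    rw [Real.rpow_neg h0.le]
    simp
  have h2 : RJ T 0 = ll T ^ (3 / 2 : ℝ) := by
    unfold RJ
    rw [h1, ← Real.rpow_mul h0.le]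
    norm_num
  rw [h2]
  have h3 : ll T ^ (3 / 2 : ℝ) = ll T ^ (1 / 2 : ℝ) * ll T := by
    rw [show (3 / 2 : ℝ) = 1 / 2 + 1 by norm_num, Real.rpow_add h0, Real.rpow_one]
  rw [h3]
  have h4 : (2 : ℝ) ≤ ll T ^ (1 / 2 : ℝ) := by
    have h5 : (4 : ℝ) ^ (1 / 2 : ℝ) ≤ ll T ^ (1 / 2 : ℝ) :=
      Real.rpow_le_rpow (by norm_num) hl (by norm_num)
    have h6 : (4 : ℝ) ^ (1 / 2 : ℝ) = 2 := by
      rw [show (4 : ℝ) = 2 ^ (2 : ℝ) by norm_num, ← Real.rpow_mul (by norm_num)]
      norm_num
    linarith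
  exact mul_le_mul_of_nonneg_right h4 h0.le

/-- the sum over the blocks is a sum over the primes up to `yy T j`. -/
theorem sum_blocks {T : ℝ} (hd : ∀ i i', i ≠ i' → Disjoint (SS T i) (SS T i'))
    (hu : ∀ j, (Finset.range (j + 1)).biUnion (SS T) = prs 1 (yy T j)) (f : ℕ → ℝ) (j : ℕ) :
    ∑ i ∈ Finset.range (j + 1), ∑ p ∈ SS T i, f p = ∑ p ∈ prs 1 (yy T j), f p := by
  rw [← hu j, Finset.sum_biUnion]
  intro a _ b _ hab
  exact hd a b hab

/-- BLS -/
theorem bls (hM : Mr2Statement) (hS : SclStatement) (hB : BiuStatement) : BlsStatement := by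
  obtain ⟨CM, hCM, hM1, hM2, hM3⟩ := hM
  obtain ⟨TS, hTS, hS⟩ := hS
  obtain ⟨TB, hTB, hB⟩ := hB
  set Q : ℝ := ∑' n : ℕ, ((n : ℝ) ^ 2)⁻¹ with hQ
  have hQ0 : 0 ≤ Q := tsum_nonneg fun n => by positivity
  set C : ℝ := CM + Q + Real.exp (2 * CM) + Real.exp (2 * (1 + Real.exp 14)) with hC
  have hexp1 := Real.exp_pos (2 * CM)
  have hexp2 := Real.exp_pos (2 * (1 + Real.exp 14))
  have hCpos : 0 < C := by positivity
  set X : ℝ := 4 * CM + 100 with hX
  refine ⟨C, max (max TS TB) (Real.exp (Real.exp X)), hCpos,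
    lt_of_lt_of_le hTS (le_trans (le_max_left _ _) (le_max_left _ _)), ?_⟩
  intro T hT j hj
  have hTS' : TS ≤ T := le_trans (le_trans (le_max_left _ _) (le_max_left _ _)) hT
  have hTB' : TB ≤ T := le_trans (le_trans (le_max_right _ _) (le_max_left _ _)) hT
  have hTX : Real.exp (Real.exp X) ≤ T := le_trans (le_max_right _ _) hT
  have hXl : X ≤ ll T := two_le_of_log hTX
  have hT3 : 3 < T := lt_of_lt_of_le hTS hTS'
  have hT0 : 0 < T := by linarith
  obtain ⟨hl7, -, -, -, hKJ, -, -, hR1⟩ := hS T hTS'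
  obtain ⟨-, hdis, huni, hyy⟩ := hB T hTB'
  have hlog3 : (1 : ℝ) < Real.log 3 := by
    rw [Real.lt_log_iff_exp_lt (by norm_num)]
    have := e_lt
    linarith
  have hL1 : 1 < Real.log T := lt_trans hlog3 (Real.log_lt_log (by norm_num) hT3)
  have hL0 : 0 < Real.log T := by linarith
  have hl0 : 0 < ll T := by linarith
  have hLl : Real.log T = Real.exp (ll T) := by
    unfold ll
    rw [Real.exp_log hL0]
  -- the logarithms of the scales
  have hlogpos : ∀ i, i ≤ JJ T → 1 < Real.log (yy T i) ∧ Real.log (yy T i) ≤ Real.log T ∧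
      3 ≤ yy T i ∧ yy T i ≤ T ∧ Real.log (yy T 0) ≤ Real.log (yy T i) := by
    intro i hi
    obtain ⟨h1, h2, h3, -, -⟩ := hyy i hi
    refine ⟨?_, ?_, le_trans h1 h2, h3, ?_⟩
    · exact lt_of_lt_of_le hlog3 (Real.log_le_log (by norm_num) (le_trans h1 h2))
    · exact Real.log_le_log (by linarith) h3
    · exact Real.log_le_log (by linarith) h2
  have hsum1 : ∀ i, i ≤ JJ T → rs (prs 1 (yy T i)) ≤ ll T + CM := by
    intro i hi
    obtain ⟨h1, h2, h3, -, -⟩ := hlogpos i hi
    have h4 := hM1 (yy T i) (by linarith)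
    have h5 := (abs_le.1 h4).2
    have h6 : Real.log (Real.log (yy T i)) ≤ ll T := by
      unfold ll
      exact Real.log_le_log (by linarith) h2
    linarith
  have hlogy0 : 4 * CM ≤ Real.log (yy T 0) := by
    rw [log_yy hT0, hLl]
    have h1 : dl T 0 = 1 / ll T ^ 2 := by
      unfold dl
      simp
    rw [h1, one_div, inv_mul_eq_div, le_div_iff₀ (by positivity)]
    have h2 : ll T ^ 3 / (Nat.factorial 3 : ℝ) ≤ Real.exp (ll T) :=
      Real.pow_div_factorial_le_exp (x := ll T) hl0.le 3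
    have h3 : (Nat.factorial 3 : ℝ) = 6 := by norm_num [Nat.factorial]
    rw [h3] at h2
    have h4 : ll T ^ 4 / (Nat.factorial 4 : ℝ) ≤ Real.exp (ll T) :=
      Real.pow_div_factorial_le_exp (x := ll T) hl0.le 4
    have h5 : (Nat.factorial 4 : ℝ) = 24 := by norm_num [Nat.factorial]
    rw [h5] at h4
    refine le_trans ?_ h4
    have h6 : 4 * CM ≤ ll T := by linarith
    have h7 : (24 : ℝ) ≤ ll T := by linarith
    have h8 : 4 * CM * ll T ^ 2 ≤ ll T * ll T ^ 2 := mul_le_mul_of_nonneg_right h6 (by positivity)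
    have h9 : 24 * (ll T * ll T ^ 2) ≤ ll T * (ll T * ll T ^ 2) :=
      mul_le_mul_of_nonneg_right h7 (by positivity)
    rw [le_div_iff₀ (by norm_num)]
    nlinarith
  have hblock : ∀ i, 1 ≤ i → i ≤ JJ T → rs (SS T i) ≤ 2 := by
    intro i hi1 hi
    obtain ⟨m, rfl⟩ : ∃ m, i = m + 1 := ⟨i - 1, by omega⟩
    obtain ⟨h1, h2, h3, h4, h5⟩ := hlogpos m (by omega)
    have hlm : Real.log (yy T (m + 1)) = Real.exp 1 * Real.log (yy T m) := by
      rw [log_yy hT0, log_yy hT0, dl_succ]
      ring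
    obtain ⟨g1, g2, g3, g4, g5⟩ := hlogpos (m + 1) hi
    have hle : yy T m ≤ yy T (m + 1) := by
      have : Real.log (yy T m) ≤ Real.log (yy T (m + 1)) := by
        rw [hlm]
        have : (1 : ℝ) ≤ Real.exp 1 := by
          have := Real.add_one_le_exp (1 : ℝ)
          linarith
        nlinarith
      exact (Real.log_le_log_iff (by linarith) (by linarith)).1 this
    have h6 := hM2 (yy T m) (yy T (m + 1)) (by linarith) hle
    change rs (prs (yy T m) (yy T (m + 1))) ≤ 2
    refine le_trans h6 ?_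
    rw [div_le_iff₀ (by linarith), hlm]
    have h7 := e_lt
    nlinarith
  have hsplit : ∀ i, i ≤ JJ T → i = 0 ∨ 1 ≤ i := fun i _ => by omega
  refine ⟨?_, ?_, ?_, ?_, ?_, ?_⟩
  · -- the product
    have hx : ∀ i ∈ Finset.range j, (1 + Real.exp (7 * rs (SS T i) - KJ T i)) ^ 2 ≤
        Real.exp (2 * (if i = 0 then 1 else Real.exp 14 * Real.exp (-RJ T i))) := by
      intro i hi
      have hij : i < JJ T := lt_of_lt_of_le (Finset.mem_range.1 hi) hj
      obtain ⟨hR, hK, -⟩ := hKJ i hij
      have hxi : Real.exp (7 * rs (SS T i) - KJ T i) ≤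
          (if i = 0 then 1 else Real.exp 14 * Real.exp (-RJ T i)) := by
        split_ifs with h0
        · subst h0
          rw [Real.exp_le_one_iff]
          have h1 : rs (SS T 0) ≤ ll T + CM := hsum1 0 (by omega)
          have h2 := RJ_zero (T := T) (by linarith)
          linarith
        · rw [← Real.exp_add]
          apply Real.exp_le_exp.2
          have h1 := hblock i (by omega) hij.le
          linarith
      have h2 : 1 + Real.exp (7 * rs (SS T i) - KJ T i) ≤
          Real.exp (if i = 0 then 1 else Real.exp 14 * Real.exp (-RJ T i)) := by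
        refine le_trans ?_ (Real.add_one_le_exp _)
        linarith
      calc (1 + Real.exp (7 * rs (SS T i) - KJ T i)) ^ 2
          ≤ (Real.exp (if i = 0 then 1 else Real.exp 14 * Real.exp (-RJ T i))) ^ 2 :=
            pow_le_pow_left₀ (by positivity) h2 2
        _ = _ := by rw [← Real.exp_nat_mul]; norm_num
    have hx0 : ∀ i ∈ Finset.range j, 0 ≤ (1 + Real.exp (7 * rs (SS T i) - KJ T i)) ^ 2 :=
      fun i _ => by positivity
    refine le_trans (Finset.prod_le_prod hx0 hx) ?_
    rw [← Real.exp_sum, ← Finset.mul_sum]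
    have hsum : ∑ i ∈ Finset.range j, (if i = 0 then 1 else Real.exp 14 * Real.exp (-RJ T i)) ≤
        1 + Real.exp 14 := by
      calc ∑ i ∈ Finset.range j, (if i = 0 then 1 else Real.exp 14 * Real.exp (-RJ T i))
          ≤ ∑ i ∈ Finset.range (JJ T),
            ((if i = 0 then 1 else 0) + Real.exp 14 * Real.exp (-RJ T i)) := by
            refine le_trans (Finset.sum_le_sum (g := fun i =>
              ((if i = 0 then (1 : ℝ) else 0) + Real.exp 14 * Real.exp (-RJ T i))) ?_) ?_
            · intro i _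
              have : 0 < Real.exp 14 * Real.exp (-RJ T i) := by positivity
              split_ifs <;> linarith
            · refine Finset.sum_le_sum_of_subset_of_nonneg (Finset.range_mono hj) ?_
              intro i _ _
              have : 0 < Real.exp 14 * Real.exp (-RJ T i) := by positivity
              split_ifs <;> linarith
        _ ≤ 1 + Real.exp 14 := by
            rw [Finset.sum_add_distrib, ← Finset.mul_sum]
            have h1 : ∑ i ∈ Finset.range (JJ T), (if i = 0 then (1 : ℝ) else 0) ≤ 1 := by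
              rw [Finset.sum_ite_eq']
              split_ifs <;> norm_num
            have h2 : Real.exp 14 * ∑ i ∈ Finset.range (JJ T), Real.exp (-RJ T i) ≤
                Real.exp 14 * 1 := mul_le_mul_of_nonneg_left hR1 (Real.exp_pos _).le
            linarith
    refine le_trans (Real.exp_le_exp.2 (mul_le_mul_of_nonneg_left hsum (by norm_num))) ?_
    linarith
  · have h1 : rs (SS T 0) ≤ ll T + CM := hsum1 0 (by omega)
    linarith
  · intro h1
    exact hblock j h1 hj
  · obtain ⟨h1, h2, h3, h4, h5⟩ := hlogpos j hj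
    have h6 := hM3 (yy T j) T (by linarith) h4
    have h7 : Real.log T / Real.log (yy T j) = 1 / dl T j := by
      rw [log_yy hT0]
      have : 0 < dl T j := by
        unfold dl
        positivity
      field_simp
    rw [h7] at h6
    have hdl : 0 < dl T j := by
      unfold dl
      positivity
    calc Real.exp (2 * rs (prs (yy T j) T))
        ≤ Real.exp (2 * (Real.log (1 / dl T j) + CM)) :=
          Real.exp_le_exp.2 (by linarith)
      _ = Real.exp (2 * CM) * (1 / dl T j) ^ 2 := by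
          rw [mul_add, Real.exp_add, mul_comm]
          congr 1
          rw [show 2 * Real.log (1 / dl T j) = ((2 : ℕ) : ℝ) * Real.log (1 / dl T j) by norm_num,
            Real.exp_nat_mul, Real.exp_log (by positivity)]
      _ ≤ C * (1 / dl T j) ^ 2 := by
          refine mul_le_mul_of_nonneg_right ?_ (by positivity)
          linarith
  · rcases Nat.eq_zero_or_pos j with h0 | h0
    · subst h0
      simpa using hCpos.le
    · obtain ⟨m, rfl⟩ : ∃ m, j = m + 1 := ⟨j - 1, by omega⟩
      have h1 := sum_blocks hdis huni (fun p => ((p : ℝ) ^ 2)⁻¹) m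
      have h2 : ∑ i ∈ Finset.range (m + 1), rq (SS T i) = rq (prs 1 (yy T m)) := h1
      rw [h2]
      have h3 := rq_le_tsum (prs 1 (yy T m))
      linarith
  · rcases Nat.eq_zero_or_pos j with h0 | h0
    · subst h0
      simp only [Finset.range_zero, Finset.sum_empty]
      linarith
    · obtain ⟨m, rfl⟩ : ∃ m, j = m + 1 := ⟨j - 1, by omega⟩
      have h1 := sum_blocks hdis huni (fun p => (p : ℝ)⁻¹) m
      have h2 : ∑ i ∈ Finset.range (m + 1), rs (SS T i) = rs (prs 1 (yy T m)) := h1
      rw [h2]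
      have h3 := hsum1 m (by omega)
      linarith

end Pool.Agent.Lib.MP_6bc78b_nt.MS.QZ.H94
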